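import Mathlib

set_option autoImplicit false

namespace Pool.Agent.W596.Doyle

/-- The angle at the centre of the circle of radius `r` in the triangle formed by the centres of
three mutually externally tangent circles of radii `r`, `s`, `t`: the angle opposite the side
`s + t` in the triangle with sides `r + s`, `r + t`, `s + t`. -/
noncomputable def angle (r s t : ℝ) : ℝ :=
  Real.arccos (((r + s) ^ 2 + (r + t) ^ 2 - (s + t) ^ 2) / (2 * (r + s) * (r + t)))

theorem angle_comm (r s t : ℝ) : angle r s t = angle r t s := by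
  unfold angle
  congr 1
  ring

/-- the inradius -/
noncomputable def inr (r s t : ℝ) : ℝ := Real.sqrt (r * s * t / (r + s + t))

theorem inr_pos {r s t : ℝ} (hr : 0 < r) (hs : 0 < s) (ht : 0 < t) : 0 < inr r s t := by
  unfold inr; positivity

theorem inr_sq {r s t : ℝ} (hr : 0 < r) (hs : 0 < s) (ht : 0 < t) :
    inr r s t ^ 2 = r * s * t / (r + s + t) := by
  unfold inr; rw [Real.sq_sqrt (by positivity)]

theorem angle_eq {r s t : ℝ} (hr : 0 < r) (hs : 0 < s) (ht : 0 < t) :
    angle r s t = 2 * Real.arctan (inr r s t / r) := by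
  have hp : 0 < inr r s t / r := div_pos (inr_pos hr hs ht) hr
  have h1 : 0 < Real.arctan (inr r s t / r) := by
    rw [← Real.arctan_zero]; exact Real.arctan_strictMono hp
  have h2 := Real.arctan_lt_pi_div_two (inr r s t / r)
  unfold angle
  rw [← Real.arccos_cos (x := 2 * Real.arctan (inr r s t / r)) (by linarith) (by linarith)]
  congr 1
  rw [Real.cos_two_mul, Real.cos_sq_arctan, div_pow, inr_sq hr hs ht]
  have : 0 < r + s + t := by positivity
  field_simp
  ring

theorem angle_lt_pi {r s t : ℝ} (hr : 0 < r) (hs : 0 < s) (ht : 0 < t) :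
    angle r s t < Real.pi := by
  rw [angle_eq hr hs ht]
  have h2 := Real.arctan_lt_pi_div_two (inr r s t / r)
  linarith

/-- the conductance of the edge joining the first two circles -/
noncomputable def cond (r s t : ℝ) : ℝ := inr r s t / (r + s)

theorem inr_rot (r s t : ℝ) : inr s t r = inr r s t := by
  unfold inr; congr 1; rw [show s * t * r = r * s * t by ring, show s + t + r = r + s + t by ring]

theorem inr_swap (r s t : ℝ) : inr s r t = inr r s t := by
  unfold inr; congr 1; rw [show s * r * t = r * s * t by ring, show s + r + t = r + s + t by ring]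

theorem cond_comm (r s t : ℝ) : cond s r t = cond r s t := by
  unfold cond; rw [inr_swap, add_comm]

theorem cond_pos {r s t : ℝ} (hr : 0 < r) (hs : 0 < s) (ht : 0 < t) : 0 < cond r s t :=
  div_pos (inr_pos hr hs ht) (by positivity)

theorem cond_le {r s t : ℝ} (hr : 0 < r) (hs : 0 < s) (ht : 0 < t) : cond r s t ≤ 1 / 2 := by
  unfold cond
  rw [div_le_iff₀ (by positivity)]
  have h : inr r s t ^ 2 ≤ ((r + s) / 2) ^ 2 := by
    rw [inr_sq hr hs ht, div_le_iff₀ (by positivity)]
    have h1 : r * s ≤ ((r + s) / 2) ^ 2 := by nlinarith [sq_nonneg (r - s)]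
    calc r * s * t ≤ ((r + s) / 2) ^ 2 * t := by gcongr
      _ ≤ ((r + s) / 2) ^ 2 * (r + s + t) := by gcongr; linarith
  have h2 := abs_le_of_sq_le_sq' h (by positivity)
  linarith [h2.2]

/-- derivative of the inradius along a log-linear path -/
theorem hasDerivAt_path {x y z a b c s : ℝ} :
    HasDerivAt (fun s : ℝ => angle (Real.exp (x + s * a)) (Real.exp (y + s * b))
      (Real.exp (z + s * c)))
      (cond (Real.exp (x + s * a)) (Real.exp (y + s * b)) (Real.exp (z + s * c)) * (b - a) +
       cond (Real.exp (x + s * a)) (Real.exp (z + s * c)) (Real.exp (y + s * b)) * (c - a)) s := by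
  have e : (fun s : ℝ => angle (Real.exp (x + s * a)) (Real.exp (y + s * b))
      (Real.exp (z + s * c))) = fun s : ℝ => 2 * Real.arctan (Real.sqrt
        (Real.exp (x + s * a) * Real.exp (y + s * b) * Real.exp (z + s * c) /
        (Real.exp (x + s * a) + Real.exp (y + s * b) + Real.exp (z + s * c))) /
          Real.exp (x + s * a)) := by
    funext s
    rw [angle_eq (Real.exp_pos _) (Real.exp_pos _) (Real.exp_pos _)]
    rfl
  rw [e]
  have hX : HasDerivAt (fun s : ℝ => Real.exp (x + s * a)) (Real.exp (x + s * a) * a) s := by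
    have h1 : HasDerivAt (fun s : ℝ => x + s * a) a s := by
      simpa using ((hasDerivAt_id s).mul_const a).const_add x
    exact h1.exp
  have hY : HasDerivAt (fun s : ℝ => Real.exp (y + s * b)) (Real.exp (y + s * b) * b) s := by
    have h1 : HasDerivAt (fun s : ℝ => y + s * b) b s := by
      simpa using ((hasDerivAt_id s).mul_const b).const_add y
    exact h1.exp
  have hZ : HasDerivAt (fun s : ℝ => Real.exp (z + s * c)) (Real.exp (z + s * c) * c) s := by
    have h1 : HasDerivAt (fun s : ℝ => z + s * c) c s := by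
      simpa using ((hasDerivAt_id s).mul_const c).const_add z
    exact h1.exp
  set X := Real.exp (x + s * a) with hXd
  set Y := Real.exp (y + s * b) with hYd
  set Z := Real.exp (z + s * c) with hZd
  have pX : 0 < X := Real.exp_pos _
  have pY : 0 < Y := Real.exp_pos _
  have pZ : 0 < Z := Real.exp_pos _
  have hQ : HasDerivAt (fun s : ℝ => Real.exp (x + s * a) * Real.exp (y + s * b) *
      Real.exp (z + s * c) / (Real.exp (x + s * a) + Real.exp (y + s * b) + Real.exp (z + s * c)))
      (((((X * a) * Y + X * (Y * b)) * Z + X * Y * (Z * c)) * (X + Y + Z) -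
        X * Y * Z * (X * a + Y * b + Z * c)) / (X + Y + Z) ^ 2) s :=
    ((hX.mul hY).mul hZ).div ((hX.add hY).add hZ) (by positivity)
  have hS := hQ.sqrt (by positivity)
  set ρ := Real.sqrt (X * Y * Z / (X + Y + Z)) with hρ
  have pρ : 0 < ρ := by rw [hρ]; positivity
  have hρ2 : ρ ^ 2 = X * Y * Z / (X + Y + Z) := by rw [hρ, Real.sq_sqrt (by positivity)]
  have hD : HasDerivAt (fun s : ℝ => Real.sqrt
        (Real.exp (x + s * a) * Real.exp (y + s * b) * Real.exp (z + s * c) /
        (Real.exp (x + s * a) + Real.exp (y + s * b) + Real.exp (z + s * c))) /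
          Real.exp (x + s * a))
      (((((X * a * Y + X * (Y * b)) * Z + X * Y * (Z * c)) * (X + Y + Z) -
        X * Y * Z * (X * a + Y * b + Z * c)) / (X + Y + Z) ^ 2 / (2 * ρ) * X - ρ * (X * a)) / X ^ 2)
      s := hS.div hX pX.ne'
  have hT : HasDerivAt (fun s : ℝ => 2 * Real.arctan (Real.sqrt
        (Real.exp (x + s * a) * Real.exp (y + s * b) * Real.exp (z + s * c) /
        (Real.exp (x + s * a) + Real.exp (y + s * b) + Real.exp (z + s * c))) /
          Real.exp (x + s * a))) (2 * (1 / (1 + (ρ / X) ^ 2) *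
      (((((X * a * Y + X * (Y * b)) * Z + X * Y * (Z * c)) * (X + Y + Z) -
        X * Y * Z * (X * a + Y * b + Z * c)) / (X + Y + Z) ^ 2 / (2 * ρ) * X - ρ * (X * a)) / X ^ 2)))
      s := hD.arctan.const_mul 2
  refine hT.congr_deriv ?_
  have c1 : cond X Y Z = ρ / (X + Y) := rfl
  have c2 : cond X Z Y = ρ / (X + Z) := by
    unfold cond inr
    rw [hρ, show X * Z * Y = X * Y * Z by ring, show X + Z + Y = X + Y + Z by ring]
  rw [c1, c2]
  have h3 : 1 + (ρ / X) ^ 2 = (X + Y) * (X + Z) / (X * (X + Y + Z)) := by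
    rw [div_pow, hρ2]
    field_simp
    ring
  rw [h3]
  have h5 : X * Y * Z = ρ ^ 2 * (X + Y + Z) := by
    rw [hρ2]; field_simp
  have h6 : ((X * a * Y + X * (Y * b)) * Z + X * Y * (Z * c)) = (ρ ^ 2 * (X + Y + Z)) * (a + b + c) := by
    rw [← h5]; ring
  rw [h6, h5]
  have h4 : ρ ≠ 0 := pρ.ne'
  field_simp
  ring

end Pool.Agent.W596.Doyle
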