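import Mathlib

set_option autoImplicit false

namespace Pool.Agent.W596.Doyle

/-- harmonic numbers -/
noncomputable def LL (n : ℕ) : ℝ := ∑ j ∈ Finset.range n, 1 / ((j : ℝ) + 1)

theorem LL_succ (n : ℕ) : LL (n + 1) = LL n + 1 / ((n : ℝ) + 1) := by
  unfold LL; rw [Finset.sum_range_succ]

theorem LL_mono : Monotone LL := by
  apply monotone_nat_of_le_succ
  intro n
  rw [LL_succ]
  have : (0 : ℝ) < 1 / ((n : ℝ) + 1) := by positivity
  linarith

/-- sup norm on `ℤ × ℤ` -/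
def nrm (v : ℤ × ℤ) : ℕ := max v.1.natAbs v.2.natAbs

theorem sum_box (n : ℕ) (h : ℕ → ℝ) (hh : ∀ k, 0 ≤ h k) (f : ℤ × ℤ → ℝ)
    (hf : ∀ v, f v ≤ h (nrm v)) (hn : ∀ v, n < nrm v → f v = 0) :
    ∑' v, f v ≤ ∑ k ∈ Finset.range (n + 1), 8 * ((k : ℝ) + 1) * h k := by
  classical
  set B : Finset (ℤ × ℤ) := (Finset.range (n + 1)).biUnion fun k => Finset.box k with hB
  have hmem : ∀ v, v ∉ B → f v = 0 := by
    intro v hv
    apply hn
    by_contra hcon
    apply hv
    rw [hB, Finset.mem_biUnion]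
    exact ⟨nrm v, by rw [Finset.mem_range]; omega, by rw [Int.mem_box]; rfl⟩
  rw [tsum_eq_sum (s := B) (fun v hv => hmem v hv)]
  have hdisj : Set.PairwiseDisjoint (Finset.range (n + 1) : Set ℕ)
      (fun k => (Finset.box k : Finset (ℤ × ℤ))) := by
    intro i _ j _ hij
    rw [Function.onFun, Finset.disjoint_left]
    intro v hi hj
    rw [Int.mem_box] at hi hj
    exact hij (hi.symm.trans hj)
  rw [hB, Finset.sum_biUnion hdisj]
  apply Finset.sum_le_sum
  intro k _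
  have h1 : ∀ v ∈ (Finset.box k : Finset (ℤ × ℤ)), f v ≤ h k := by
    intro v hv
    rw [Int.mem_box] at hv
    have := hf v
    unfold nrm at this
    rwa [hv] at this
  calc ∑ v ∈ (Finset.box k : Finset (ℤ × ℤ)), f v ≤ ∑ _v ∈ (Finset.box k : Finset (ℤ × ℤ)), h k :=
        Finset.sum_le_sum h1
    _ = ((Finset.box k : Finset (ℤ × ℤ)).card : ℝ) * h k := by
        rw [Finset.sum_const, nsmul_eq_mul]
    _ ≤ 8 * ((k : ℝ) + 1) * h k := by
        apply mul_le_mul_of_nonneg_right _ (hh k)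
        rcases Nat.eq_zero_or_pos k with rfl | hk
        · simp
        · rw [Int.card_box (by omega)]
          push_cast
          linarith

/-- the cutoff profile -/
noncomputable def prof (n0 n : ℕ) (k : ℕ) : ℝ :=
  max 0 (min 1 ((LL n - LL k) / (LL n - LL n0)))

theorem prof_one {n0 n k : ℕ} (hn : n0 < n) (hk : k ≤ n0) : prof n0 n k = 1 := by
  unfold prof
  have h1 : 0 < LL n - LL n0 := by
    have := LL_mono (show n0 + 1 ≤ n by omega)
    rw [LL_succ] at this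
    have h2 : (0 : ℝ) < 1 / ((n0 : ℝ) + 1) := by positivity
    linarith
  have h2 : 1 ≤ (LL n - LL k) / (LL n - LL n0) := by
    rw [one_le_div h1]
    linarith [LL_mono hk]
  rw [min_eq_left h2]
  simp

theorem prof_zero {n0 n k : ℕ} (hn : n0 < n) (hk : n ≤ k) : prof n0 n k = 0 := by
  unfold prof
  have h1 : 0 < LL n - LL n0 := by
    have := LL_mono (show n0 + 1 ≤ n by omega)
    rw [LL_succ] at this
    have h2 : (0 : ℝ) < 1 / ((n0 : ℝ) + 1) := by positivity
    linarith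
  apply max_eq_left
  refine (min_le_right _ _).trans ?_
  apply div_nonpos_of_nonpos_of_nonneg _ h1.le
  linarith [LL_mono hk]

theorem prof_diff {n0 n : ℕ} (hn : n0 < n) (k : ℕ) :
    (prof n0 n k - prof n0 n (k + 1)) ^ 2 ≤ 1 / (((k : ℝ) + 1) ^ 2 * (LL n - LL n0) ^ 2) := by
  have h1 : 0 < LL n - LL n0 := by
    have := LL_mono (show n0 + 1 ≤ n by omega)
    rw [LL_succ] at this
    have h2 : (0 : ℝ) < 1 / ((n0 : ℝ) + 1) := by positivity
    linarith
  have h2 : |prof n0 n k - prof n0 n (k + 1)| ≤ 1 / (((k : ℝ) + 1) * (LL n - LL n0)) := by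
    unfold prof
    refine (abs_max_sub_max_le_max _ _ _ _).trans ?_
    rw [sub_self, abs_zero]
    apply max_le (by positivity)
    refine (abs_min_sub_min_le_max _ _ _ _).trans ?_
    rw [sub_self, abs_zero]
    apply max_le (by positivity)
    rw [← sub_div, LL_succ]
    have : LL n - LL k - (LL n - (LL k + 1 / ((k : ℝ) + 1))) = 1 / ((k : ℝ) + 1) := by ring
    rw [this, abs_of_nonneg (by positivity), div_div]
  calc (prof n0 n k - prof n0 n (k + 1)) ^ 2 = |prof n0 n k - prof n0 n (k + 1)| ^ 2 := by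
        rw [sq_abs]
    _ ≤ (1 / (((k : ℝ) + 1) * (LL n - LL n0))) ^ 2 := by gcongr
    _ = _ := by rw [div_pow, mul_pow, one_pow]

/-- radial cutoff function -/
noncomputable def cut (n0 n : ℕ) (v : ℤ × ℤ) : ℝ := prof n0 n (nrm v)

/-- square differences of the cutoff at two lattice points whose norms differ by at most one and
are within one of `m` -/
theorem cut_diff {n0 n : ℕ} (hn : n0 < n) (m : ℕ) (p q : ℤ × ℤ)
    (h1 : nrm p ≤ nrm q + 1) (h2 : nrm q ≤ nrm p + 1) (hp : m ≤ nrm p + 1) (hq : m ≤ nrm q + 1) :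
    (cut n0 n p - cut n0 n q) ^ 2 ≤ 4 / (((m : ℝ) + 1) ^ 2 * (LL n - LL n0) ^ 2) := by
  have h0 : 0 < LL n - LL n0 := by
    have := LL_mono (show n0 + 1 ≤ n by omega)
    rw [LL_succ] at this
    have h2 : (0 : ℝ) < 1 / ((n0 : ℝ) + 1) := by positivity
    linarith
  have key : ∀ k : ℕ, m ≤ k + 1 → (prof n0 n k - prof n0 n (k + 1)) ^ 2 ≤
      4 / (((m : ℝ) + 1) ^ 2 * (LL n - LL n0) ^ 2) := by
    intro k hk
    refine (prof_diff hn k).trans ?_
    rw [div_le_div_iff₀ (by positivity) (by positivity)]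
    have : (m : ℝ) ≤ k + 1 := by exact_mod_cast hk
    have h3 : ((m : ℝ) + 1) ≤ 2 * ((k : ℝ) + 1) := by
      have : (0 : ℝ) ≤ k := by positivity
      linarith
    have h4 : ((m : ℝ) + 1) ^ 2 ≤ (2 * ((k : ℝ) + 1)) ^ 2 := by gcongr
    calc 1 * (((m : ℝ) + 1) ^ 2 * (LL n - LL n0) ^ 2) ≤ (2 * ((k : ℝ) + 1)) ^ 2 * (LL n - LL n0) ^ 2 := by
          rw [one_mul]; gcongr
      _ = _ := by ring
  unfold cut
  have : nrm p = nrm q ∨ nrm p = nrm q + 1 ∨ nrm q = nrm p + 1 := by omega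
  rcases this with h | h | h
  · rw [h, sub_self, zero_pow two_ne_zero]
    positivity
  · rw [h]
    have := key (nrm q) hq
    rwa [show (prof n0 n (nrm q + 1) - prof n0 n (nrm q)) ^ 2 =
      (prof n0 n (nrm q) - prof n0 n (nrm q + 1)) ^ 2 by ring]
  · rw [h]
    exact key (nrm p) hp

/-- the energy of a function in the two triangles at a vertex -/
def energyAt (φ : ℤ × ℤ → ℝ) (w : ℤ × ℤ) : ℝ :=
  ((φ w - φ (w + (1, 0))) ^ 2 + (φ (w + (1, 0)) - φ (w + (0, 1))) ^ 2 +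
    (φ w - φ (w + (0, 1))) ^ 2) +
  ((φ w - φ (w + (0, 1))) ^ 2 + (φ (w + (0, 1)) - φ (w + (-1, 1))) ^ 2 +
    (φ w - φ (w + (-1, 1))) ^ 2)

theorem cut_energy_le {n0 n : ℕ} (hn : n0 < n) (w : ℤ × ℤ) :
    energyAt (cut n0 n) w ≤ 24 / (((nrm w : ℝ) + 1) ^ 2 * (LL n - LL n0) ^ 2) := by
  obtain ⟨a, b⟩ := w
  unfold energyAt
  have e : ∀ p q : ℤ × ℤ, (nrm p ≤ nrm q + 1) → (nrm q ≤ nrm p + 1) → (nrm (a, b) ≤ nrm p + 1) →
      (nrm (a, b) ≤ nrm q + 1) → _ := fun p q => cut_diff hn (nrm (a, b)) p q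
  have e1 := e (a, b) ((a, b) + (1, 0)) (by simp only [nrm, Prod.mk_add_mk]; omega)
    (by simp only [nrm, Prod.mk_add_mk]; omega) (by simp only [nrm]; omega)
    (by simp only [nrm, Prod.mk_add_mk]; omega)
  have e2 := e ((a, b) + (1, 0)) ((a, b) + (0, 1)) (by simp only [nrm, Prod.mk_add_mk]; omega)
    (by simp only [nrm, Prod.mk_add_mk]; omega) (by simp only [nrm, Prod.mk_add_mk]; omega)
    (by simp only [nrm, Prod.mk_add_mk]; omega)
  have e3 := e (a, b) ((a, b) + (0, 1)) (by simp only [nrm, Prod.mk_add_mk]; omega)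
    (by simp only [nrm, Prod.mk_add_mk]; omega) (by simp only [nrm]; omega)
    (by simp only [nrm, Prod.mk_add_mk]; omega)
  have e4 := e ((a, b) + (0, 1)) ((a, b) + (-1, 1)) (by simp only [nrm, Prod.mk_add_mk]; omega)
    (by simp only [nrm, Prod.mk_add_mk]; omega) (by simp only [nrm, Prod.mk_add_mk]; omega)
    (by simp only [nrm, Prod.mk_add_mk]; omega)
  have e5 := e (a, b) ((a, b) + (-1, 1)) (by simp only [nrm, Prod.mk_add_mk]; omega)
    (by simp only [nrm, Prod.mk_add_mk]; omega) (by simp only [nrm]; omega)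
    (by simp only [nrm, Prod.mk_add_mk]; omega)
  have : 24 / (((nrm (a, b) : ℝ) + 1) ^ 2 * (LL n - LL n0) ^ 2) =
    6 * (4 / (((nrm (a, b) : ℝ) + 1) ^ 2 * (LL n - LL n0) ^ 2)) := by ring
  rw [this]
  linarith

theorem cut_energy_zero {n0 n : ℕ} (hn : n0 < n) (w : ℤ × ℤ) (hw : n < nrm w) :
    energyAt (cut n0 n) w = 0 := by
  obtain ⟨a, b⟩ := w
  have h : ∀ p : ℤ × ℤ, n ≤ nrm p → cut n0 n p = 0 := fun p hp => prof_zero hn hp
  unfold energyAt
  rw [h (a, b) hw.le, h ((a, b) + (1, 0)) (by simp only [nrm, Prod.mk_add_mk] at hw ⊢; omega),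
    h ((a, b) + (0, 1)) (by simp only [nrm, Prod.mk_add_mk] at hw ⊢; omega),
    h ((a, b) + (-1, 1)) (by simp only [nrm, Prod.mk_add_mk] at hw ⊢; omega)]
  ring

theorem energyAt_nonneg (φ : ℤ × ℤ → ℝ) (w : ℤ × ℤ) : 0 ≤ energyAt φ w := by
  unfold energyAt; positivity

theorem LL_tendsto : Filter.Tendsto LL Filter.atTop Filter.atTop :=
  Real.tendsto_sum_range_one_div_nat_succ_atTop

theorem cutoff (n0 : ℕ) (ε : ℝ) (hε : 0 < ε) : ∃ φ : ℤ × ℤ → ℝ, (Function.support φ).Finite ∧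
    (∀ v, nrm v ≤ n0 → φ v = 1) ∧ ∑' w, energyAt φ w ≤ ε := by
  classical
  obtain ⟨n, hn⟩ := (LL_tendsto.eventually_ge_atTop
    (max (LL n0 + 1) (LL n0 + 192 * (LL n0 + 2) / ε))).exists
  have hA : LL n0 + 1 ≤ LL n := (le_max_left _ _).trans hn
  have hB : LL n0 + 192 * (LL n0 + 2) / ε ≤ LL n := (le_max_right _ _).trans hn
  have hn0 : n0 < n := by
    by_contra hcon
    push Not at hcon
    linarith [LL_mono hcon]
  have hL0 : 0 ≤ LL n0 := by unfold LL; positivity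
  refine ⟨cut n0 n, ?_, fun v hv => prof_one hn0 hv, ?_⟩
  · apply Set.Finite.subset ((Finset.range (n + 1)).biUnion
      fun k => (Finset.box k : Finset (ℤ × ℤ))).finite_toSet
    intro v hv
    rw [Finset.mem_coe, Finset.mem_biUnion]
    refine ⟨nrm v, ?_, by rw [Int.mem_box]; rfl⟩
    rw [Finset.mem_range]
    by_contra hcon
    exact hv (prof_zero hn0 (by omega))
  · have h1 := sum_box n (fun k => 24 / (((k : ℝ) + 1) ^ 2 * (LL n - LL n0) ^ 2))
      (fun k => by positivity) (energyAt (cut n0 n)) (cut_energy_le hn0)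
      (cut_energy_zero hn0)
    refine h1.trans ?_
    set y := LL n - LL n0 with hy
    have hy1 : 1 ≤ y := by linarith
    have h2 : ∀ k ∈ Finset.range (n + 1), 8 * ((k : ℝ) + 1) * (24 / (((k : ℝ) + 1) ^ 2 * y ^ 2))
        = 192 / y ^ 2 * (1 / ((k : ℝ) + 1)) := by
      intro k _
      have : (k : ℝ) + 1 ≠ 0 := by positivity
      field_simp
      norm_num
    rw [Finset.sum_congr rfl h2, ← Finset.mul_sum]
    have h3 : ∑ i ∈ Finset.range (n + 1), 1 / ((i : ℝ) + 1) = LL (n + 1) := rfl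
    rw [h3, LL_succ]
    have h4 : LL n + 1 / ((n : ℝ) + 1) ≤ y * (LL n0 + 2) := by
      have h5 : 1 / ((n : ℝ) + 1) ≤ 1 := by
        rw [div_le_one (by positivity)]
        have : (0 : ℝ) ≤ n := by positivity
        linarith
      have h6 : LL n = y + LL n0 := by rw [hy]; ring
      nlinarith
    have h7 : 192 * (LL n0 + 2) / ε ≤ y := by linarith
    rw [div_le_iff₀ hε] at h7
    calc 192 / y ^ 2 * (LL n + 1 / ((n : ℝ) + 1)) ≤ 192 / y ^ 2 * (y * (LL n0 + 2)) := by gcongr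
      _ = 192 * (LL n0 + 2) / y := by field_simp
      _ ≤ ε := by rw [div_le_iff₀ (by linarith)]; linarith

end Pool.Agent.W596.Doyle
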