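import Pool.Agent.W596.Doyle.Ring
import Pool.Agent.W596.Doyle.Cutoff

set_option autoImplicit false

namespace Pool.Agent.W596.Doyle

/-- The six directions from a vertex to its neighbours, counterclockwise. -/
def dir : Fin 6 → ℤ × ℤ := ![(1, 0), (0, 1), (-1, 1), (-1, 0), (0, -1), (1, -1)]

/-- The angle sum of the label `R` at the vertex `v`. -/
noncomputable def angleSum (R : ℤ × ℤ → ℝ) (v : ℤ × ℤ) : ℝ :=
  ∑ k : Fin 6, angle (R v) (R (v + dir k)) (R (v + dir (k + 1)))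

section face

variable (x u : ℤ × ℤ → ℝ)

/-- log-linear interpolation of labels -/
noncomputable def EE (s : ℝ) (p : ℤ × ℤ) : ℝ := Real.exp (x p + s * u p)

theorem EE_pos (s : ℝ) (p : ℤ × ℤ) : 0 < EE x u s p := Real.exp_pos _

/-- weighted angle sum of a face -/
noncomputable def GG (ψ : ℤ × ℤ → ℝ) (p q r : ℤ × ℤ) (s : ℝ) : ℝ :=
  ψ p * angle (EE x u s p) (EE x u s q) (EE x u s r) +
  ψ q * angle (EE x u s q) (EE x u s r) (EE x u s p) +
  ψ r * angle (EE x u s r) (EE x u s p) (EE x u s q)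

theorem hasDerivAt_GG (ψ : ℤ × ℤ → ℝ) (p q r : ℤ × ℤ) (s : ℝ) :
    HasDerivAt (GG x u ψ p q r)
      (-(cond (EE x u s p) (EE x u s q) (EE x u s r) * ((ψ p - ψ q) * (u p - u q)) +
        cond (EE x u s q) (EE x u s r) (EE x u s p) * ((ψ q - ψ r) * (u q - u r)) +
        cond (EE x u s r) (EE x u s p) (EE x u s q) * ((ψ r - ψ p) * (u r - u p)))) s := by
  have h1 : HasDerivAt (fun s : ℝ => angle (EE x u s p) (EE x u s q) (EE x u s r)) _ s :=
    hasDerivAt_path (x := x p) (y := x q) (z := x r) (a := u p) (b := u q) (c := u r)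
  have h2 : HasDerivAt (fun s : ℝ => angle (EE x u s q) (EE x u s r) (EE x u s p)) _ s :=
    hasDerivAt_path (x := x q) (y := x r) (z := x p) (a := u q) (b := u r) (c := u p)
  have h3 : HasDerivAt (fun s : ℝ => angle (EE x u s r) (EE x u s p) (EE x u s q)) _ s :=
    hasDerivAt_path (x := x r) (y := x p) (z := x q) (a := u r) (b := u p) (c := u q)
  have h := ((h1.const_mul (ψ p)).add (h2.const_mul (ψ q))).add (h3.const_mul (ψ r))
  refine h.congr_deriv ?_
  change ψ p * (cond (EE x u s p) (EE x u s q) (EE x u s r) * (u q - u p) +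
      cond (EE x u s p) (EE x u s r) (EE x u s q) * (u r - u p)) +
    ψ q * (cond (EE x u s q) (EE x u s r) (EE x u s p) * (u r - u q) +
      cond (EE x u s q) (EE x u s p) (EE x u s r) * (u p - u q)) +
    ψ r * (cond (EE x u s r) (EE x u s p) (EE x u s q) * (u p - u r) +
      cond (EE x u s r) (EE x u s q) (EE x u s p) * (u q - u r)) = _
  rw [cond_comm (EE x u s r) (EE x u s p) (EE x u s q),
    cond_comm (EE x u s p) (EE x u s q) (EE x u s r),
    cond_comm (EE x u s q) (EE x u s r) (EE x u s p)]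
  ring

theorem pair_ineq {M a b φ χ c : ℝ} (ha : |a| ≤ M) (hb : |b| ≤ M) (hc0 : 0 ≤ c) (hc : c ≤ 1 / 2) :
    c * ((φ ^ 2 + χ ^ 2) / 4 * (a - b) ^ 2) - M ^ 2 * (φ - χ) ^ 2 ≤
      c * ((φ ^ 2 * a - χ ^ 2 * b) * (a - b)) := by
  have h1 : (φ ^ 2 + χ ^ 2) / 4 * (a - b) ^ 2 - (φ - χ) ^ 2 * (a + b) ^ 2 / 2 ≤
      (φ ^ 2 * a - χ ^ 2 * b) * (a - b) := by
    have e : (φ ^ 2 * a - χ ^ 2 * b) * (a - b) = (φ ^ 2 + χ ^ 2) / 2 * (a - b) ^ 2 +
        ((φ - χ) * (a + b)) * ((φ + χ) * (a - b)) / 2 := by ring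
    rw [e]
    nlinarith [sq_nonneg (2 * ((φ - χ) * (a + b)) + (φ + χ) * (a - b)),
      sq_nonneg ((φ - χ) * (a - b))]
  have h2 : (a + b) ^ 2 ≤ 4 * M ^ 2 := by
    have h3 : |a + b| ≤ 2 * M := (abs_add_le a b).trans (by linarith)
    have h4 : |a + b| ^ 2 ≤ (2 * M) ^ 2 := pow_le_pow_left₀ (abs_nonneg _) h3 2
    rw [sq_abs] at h4
    linarith
  have h3 : (φ - χ) ^ 2 * (a + b) ^ 2 / 2 ≤ 2 * M ^ 2 * (φ - χ) ^ 2 := by
    nlinarith [mul_le_mul_of_nonneg_left h2 (sq_nonneg (φ - χ))]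
  have h4 : c * (2 * M ^ 2 * (φ - χ) ^ 2) ≤ M ^ 2 * (φ - χ) ^ 2 := by
    have : 0 ≤ M ^ 2 * (φ - χ) ^ 2 := by positivity
    nlinarith
  have h5 := mul_le_mul_of_nonneg_left (a := c) (show (φ ^ 2 + χ ^ 2) / 4 * (a - b) ^ 2 -
    2 * M ^ 2 * (φ - χ) ^ 2 ≤ (φ ^ 2 * a - χ ^ 2 * b) * (a - b) by linarith) hc0
  linarith

theorem face_ineq {M : ℝ} (hu : ∀ v, |u v| ≤ M) (φ : ℤ × ℤ → ℝ) (p q r : ℤ × ℤ) :
    -(M ^ 2 * ((φ p - φ q) ^ 2 + (φ q - φ r) ^ 2 + (φ p - φ r) ^ 2)) ≤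
      GG x u (fun v => φ v ^ 2 * u v) p q r 0 - GG x u (fun v => φ v ^ 2 * u v) p q r 1 := by
  obtain ⟨s, -, hs⟩ := exists_hasDerivAt_eq_slope (GG x u (fun v => φ v ^ 2 * u v) p q r) _
    (zero_lt_one) (fun t _ => (hasDerivAt_GG x u _ p q r t).continuousAt.continuousWithinAt)
    (fun t _ => hasDerivAt_GG x u _ p q r t)
  have e : GG x u (fun v => φ v ^ 2 * u v) p q r 0 - GG x u (fun v => φ v ^ 2 * u v) p q r 1 =
      -((GG x u (fun v => φ v ^ 2 * u v) p q r 1 - GG x u (fun v => φ v ^ 2 * u v) p q r 0) /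
        (1 - 0)) := by ring
  rw [e, ← hs, neg_neg]
  have P := EE_pos x u s p
  have Q := EE_pos x u s q
  have R := EE_pos x u s r
  have h1 := pair_ineq (φ := φ p) (χ := φ q) (hu p) (hu q) (cond_pos P Q R).le (cond_le P Q R)
  have h2 := pair_ineq (φ := φ q) (χ := φ r) (hu q) (hu r) (cond_pos Q R P).le (cond_le Q R P)
  have h3 := pair_ineq (φ := φ r) (χ := φ p) (hu r) (hu p) (cond_pos R P Q).le (cond_le R P Q)
  have g1 : 0 ≤ cond (EE x u s p) (EE x u s q) (EE x u s r) *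
      ((φ p ^ 2 + φ q ^ 2) / 4 * (u p - u q) ^ 2) := mul_nonneg (cond_pos P Q R).le (by positivity)
  have g2 : 0 ≤ cond (EE x u s q) (EE x u s r) (EE x u s p) *
      ((φ q ^ 2 + φ r ^ 2) / 4 * (u q - u r) ^ 2) := mul_nonneg (cond_pos Q R P).le (by positivity)
  have g3 : 0 ≤ cond (EE x u s r) (EE x u s p) (EE x u s q) *
      ((φ r ^ 2 + φ p ^ 2) / 4 * (u r - u p) ^ 2) := mul_nonneg (cond_pos R P Q).le (by positivity)
  nlinarith

theorem cond_lower (p q r : ℤ × ℤ) : ∃ κ > 0, ∀ s ∈ Set.Icc (0 : ℝ) 1,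
    κ ≤ cond (EE x u s p) (EE x u s q) (EE x u s r) := by
  have hc : ContinuousOn (fun s : ℝ => cond (EE x u s p) (EE x u s q) (EE x u s r))
      (Set.Icc (0 : ℝ) 1) := by
    have hE : ∀ v, Continuous (fun s : ℝ => EE x u s v) := by
      intro v; unfold EE; fun_prop
    have h1 : Continuous (fun s : ℝ => cond (EE x u s p) (EE x u s q) (EE x u s r)) := by
      unfold cond inr
      refine Continuous.div ?_ ((hE p).add (hE q)) ?_
      · refine Real.continuous_sqrt.comp (Continuous.div (((hE p).mul (hE q)).mul (hE r))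
          (((hE p).add (hE q)).add (hE r)) ?_)
        intro s
        have P := EE_pos x u s p
        have Q := EE_pos x u s q
        have R := EE_pos x u s r
        positivity
      · intro s
        have P := EE_pos x u s p
        have Q := EE_pos x u s q
        positivity
    exact h1.continuousOn
  obtain ⟨s0, -, hs0⟩ := isCompact_Icc.exists_isMinOn ⟨0, by simp⟩ hc
  exact ⟨_, cond_pos (EE_pos x u s0 p) (EE_pos x u s0 q) (EE_pos x u s0 r), fun s hs => hs0 hs⟩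

theorem face_ineq' (p q r : ℤ × ℤ) :
    ∃ κ > 0, ∀ φ : ℤ × ℤ → ℝ, φ p = 1 → φ q = 1 → φ r = 1 →
      κ * ((u p - u q) ^ 2 + (u p - u r) ^ 2) ≤
      GG x u (fun v => φ v ^ 2 * u v) p q r 0 - GG x u (fun v => φ v ^ 2 * u v) p q r 1 := by
  obtain ⟨κ1, hκ1, h1⟩ := cond_lower x u p q r
  obtain ⟨κ2, hκ2, h2⟩ := cond_lower x u r p q
  refine ⟨min κ1 κ2 / 2, by positivity, ?_⟩
  intro φ fp fq fr
  obtain ⟨s, hsI, hs⟩ := exists_hasDerivAt_eq_slope (GG x u (fun v => φ v ^ 2 * u v) p q r) _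
    (zero_lt_one) (fun t _ => (hasDerivAt_GG x u _ p q r t).continuousAt.continuousWithinAt)
    (fun t _ => hasDerivAt_GG x u _ p q r t)
  have e : GG x u (fun v => φ v ^ 2 * u v) p q r 0 - GG x u (fun v => φ v ^ 2 * u v) p q r 1 =
      -((GG x u (fun v => φ v ^ 2 * u v) p q r 1 - GG x u (fun v => φ v ^ 2 * u v) p q r 0) /
        (1 - 0)) := by ring
  rw [e, ← hs, neg_neg]
  have hsI' : s ∈ Set.Icc (0 : ℝ) 1 := ⟨hsI.1.le, hsI.2.le⟩
  have P := EE_pos x u s p
  have Q := EE_pos x u s q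
  have R := EE_pos x u s r
  simp only [fp, fq, fr, one_pow, one_mul]
  have k1 : min κ1 κ2 ≤ cond (EE x u s p) (EE x u s q) (EE x u s r) :=
    (min_le_left _ _).trans (h1 s hsI')
  have k2 : min κ1 κ2 ≤ cond (EE x u s r) (EE x u s p) (EE x u s q) :=
    (min_le_right _ _).trans (h2 s hsI')
  have m0 : 0 < min κ1 κ2 := by positivity
  have g1 := mul_le_mul_of_nonneg_right k1 (sq_nonneg (u p - u q))
  have g2 := mul_le_mul_of_nonneg_right k2 (sq_nonneg (u r - u p))
  have g3 : 0 ≤ cond (EE x u s q) (EE x u s r) (EE x u s p) * (u q - u r) ^ 2 :=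
    mul_nonneg (cond_pos Q R P).le (sq_nonneg _)
  have g4 : 0 ≤ min κ1 κ2 * (u p - u q) ^ 2 := by positivity
  have g5 : 0 ≤ min κ1 κ2 * (u r - u p) ^ 2 := by positivity
  nlinarith

end face

section sums

variable (x u ψ : ℤ × ℤ → ℝ)

/-- contribution of the `k`-th sector at `v` -/
noncomputable def sec (k : Fin 6) (v : ℤ × ℤ) : ℝ :=
  ψ v * angle (EE x u 0 v) (EE x u 0 (v + dir k)) (EE x u 0 (v + dir (k + 1))) -
  ψ v * angle (EE x u 1 v) (EE x u 1 (v + dir k)) (EE x u 1 (v + dir (k + 1)))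

/-- the upward triangle at `w` -/
noncomputable def TU (w : ℤ × ℤ) : ℝ :=
  GG x u ψ w (w + (1, 0)) (w + (0, 1)) 0 - GG x u ψ w (w + (1, 0)) (w + (0, 1)) 1

/-- the downward triangle at `w` -/
noncomputable def TD (w : ℤ × ℤ) : ℝ :=
  GG x u ψ w (w + (0, 1)) (w + (-1, 1)) 0 - GG x u ψ w (w + (0, 1)) (w + (-1, 1)) 1

theorem TU_eq (w : ℤ × ℤ) : TU x u ψ w = sec x u ψ 0 w + sec x u ψ 2 (w + (1, 0)) +
    sec x u ψ 4 (w + (0, 1)) := by
  unfold TU GG sec
  have d0 : w + dir 0 = w + (1, 0) := rfl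
  have d1 : w + dir (0 + 1) = w + (0, 1) := rfl
  have d2 : w + (1, 0) + dir 2 = w + (0, 1) := by
    rw [add_assoc]; rfl
  have d3 : w + (1, 0) + dir (2 + 1) = w := by
    rw [add_assoc, show ((1, 0) : ℤ × ℤ) + dir (2 + 1) = 0 from rfl, add_zero]
  have d4 : w + (0, 1) + dir 4 = w := by
    rw [add_assoc, show ((0, 1) : ℤ × ℤ) + dir 4 = 0 from rfl, add_zero]
  have d5 : w + (0, 1) + dir (4 + 1) = w + (1, 0) := by
    rw [add_assoc]; rfl
  rw [d0, d1, d2, d3, d4, d5]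
  ring

theorem TD_eq (w : ℤ × ℤ) : TD x u ψ w = sec x u ψ 1 w + sec x u ψ 3 (w + (0, 1)) +
    sec x u ψ 5 (w + (-1, 1)) := by
  unfold TD GG sec
  have d0 : w + dir 1 = w + (0, 1) := rfl
  have d1 : w + dir (1 + 1) = w + (-1, 1) := rfl
  have d2 : w + (0, 1) + dir 3 = w + (-1, 1) := by
    rw [add_assoc]; rfl
  have d3 : w + (0, 1) + dir (3 + 1) = w := by
    rw [add_assoc, show ((0, 1) : ℤ × ℤ) + dir (3 + 1) = 0 from rfl, add_zero]
  have d4 : w + (-1, 1) + dir 5 = w := by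
    rw [add_assoc, show ((-1, 1) : ℤ × ℤ) + dir 5 = 0 from rfl, add_zero]
  have d5 : w + (-1, 1) + dir (5 + 1) = w + (0, 1) := by
    rw [add_assoc]; rfl
  rw [d0, d1, d2, d3, d4, d5]
  ring

theorem sec_summable (hψ : (Function.support ψ).Finite) (k : Fin 6) :
    Summable (sec x u ψ k) := by
  apply summable_of_finite_support
  apply hψ.subset
  intro v hv hcon
  apply hv
  unfold sec
  rw [hcon]; ring

theorem summable_shift {f : ℤ × ℤ → ℝ} (hf : Summable f) (c : ℤ × ℤ) :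
    Summable (fun w => f (w + c)) := (Equiv.addRight c).summable_iff.2 hf

theorem tsum_shift (f : ℤ × ℤ → ℝ) (c : ℤ × ℤ) : ∑' w, f (w + c) = ∑' w, f w :=
  (Equiv.addRight c).tsum_eq f

theorem sum_faces (hψ : (Function.support ψ).Finite)
    (h : ∀ v, ∑ k, sec x u ψ k v = 0) :
    Summable (fun w => TU x u ψ w + TD x u ψ w) ∧ ∑' w, (TU x u ψ w + TD x u ψ w) = 0 := by
  have S := sec_summable x u ψ hψ
  have e : (fun w => TU x u ψ w + TD x u ψ w) = fun w =>
      (sec x u ψ 0 w + sec x u ψ 2 (w + (1, 0)) + sec x u ψ 4 (w + (0, 1))) +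
      (sec x u ψ 1 w + sec x u ψ 3 (w + (0, 1)) + sec x u ψ 5 (w + (-1, 1))) := by
    funext w; rw [TU_eq, TD_eq]
  rw [e]
  have s2 := summable_shift (S 2) (1, 0)
  have s4 := summable_shift (S 4) (0, 1)
  have s3 := summable_shift (S 3) (0, 1)
  have s5 := summable_shift (S 5) (-1, 1)
  have A := ((S 0).add s2).add s4
  have B := ((S 1).add s3).add s5
  refine ⟨A.add B, ?_⟩
  rw [A.tsum_add B, ((S 0).add s2).tsum_add s4, (S 0).tsum_add s2, ((S 1).add s3).tsum_add s5,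
    (S 1).tsum_add s3, tsum_shift (sec x u ψ 2), tsum_shift (sec x u ψ 4),
    tsum_shift (sec x u ψ 3), tsum_shift (sec x u ψ 5)]
  have h6 : ∑' v, ∑ k, sec x u ψ k v = ∑ k, ∑' v, sec x u ψ k v :=
    Summable.tsum_finsetSum (fun k _ => S k)
  have h7 : ∑' v, ∑ k, sec x u ψ k v = 0 := by
    simp only [h, tsum_zero]
  rw [h6, Fin.sum_univ_six] at h7
  linarith

end sums

/-- Two labels with the same angle sums and bounded ratio have constant ratio. -/
theorem liouville {R R' : ℤ × ℤ → ℝ} (hR : ∀ v, 0 < R v) (hR' : ∀ v, 0 < R' v)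
    (hsum : ∀ v, angleSum R v = angleSum R' v) {M : ℝ}
    (hM : ∀ v, |Real.log (R' v) - Real.log (R v)| ≤ M) (w : ℤ × ℤ) :
    Real.log (R' w) - Real.log (R w) =
      Real.log (R' (w + (1, 0))) - Real.log (R (w + (1, 0))) ∧
    Real.log (R' w) - Real.log (R w) =
      Real.log (R' (w + (0, 1))) - Real.log (R (w + (0, 1))) := by
  set x : ℤ × ℤ → ℝ := fun v => Real.log (R v) with hx
  set u : ℤ × ℤ → ℝ := fun v => Real.log (R' v) - Real.log (R v) with hu
  have E0 : ∀ v, EE x u 0 v = R v := by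
    intro v
    unfold EE
    rw [zero_mul, add_zero]
    exact Real.exp_log (hR v)
  have E1 : ∀ v, EE x u 1 v = R' v := by
    intro v
    unfold EE
    rw [one_mul]
    simp only [hx, hu]
    rw [add_sub_cancel]
    exact Real.exp_log (hR' v)
  obtain ⟨κ, hκ, hface⟩ := face_ineq' x u w (w + (1, 0)) (w + (0, 1))
  set T := (u w - u (w + (1, 0))) ^ 2 + (u w - u (w + (0, 1))) ^ 2 with hT
  have hM0 : 0 ≤ M := (abs_nonneg _).trans (hM 0)
  have key : ∀ ε > 0, κ * T ≤ M ^ 2 * ε := by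
    intro ε hε
    obtain ⟨φ, hfin, hone, hen⟩ := cutoff (nrm w + 1) ε hε
    set ψ : ℤ × ℤ → ℝ := fun v => φ v ^ 2 * u v with hψ
    have hψf : (Function.support ψ).Finite := by
      apply hfin.subset
      intro v hv hcon
      apply hv
      simp only [hψ]
      rw [hcon]; ring
    obtain ⟨hs1, hs2⟩ := sum_faces x u ψ hψf (by
      intro v
      unfold sec
      simp only [E0, E1]
      rw [Finset.sum_sub_distrib, ← Finset.mul_sum, ← Finset.mul_sum, ← mul_sub]
      have := hsum v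
      unfold angleSum at this
      rw [this, sub_self, mul_zero])
    have hes : Summable (energyAt φ) := by
      have g : ∀ c : ℤ × ℤ, Summable (fun v : ℤ × ℤ => φ (v + c)) := fun c =>
        summable_shift (summable_of_finite_support hfin) c
      apply summable_of_finite_support
      have f1 : (Function.support (fun v : ℤ × ℤ => φ (v + (1, 0)))).Finite :=
        (hfin.preimage ((Equiv.addRight ((1, 0) : ℤ × ℤ)).injective.injOn))
      have f2 : (Function.support (fun v : ℤ × ℤ => φ (v + (0, 1)))).Finite :=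
        (hfin.preimage ((Equiv.addRight ((0, 1) : ℤ × ℤ)).injective.injOn))
      have f3 : (Function.support (fun v : ℤ × ℤ => φ (v + (-1, 1)))).Finite :=
        (hfin.preimage ((Equiv.addRight ((-1, 1) : ℤ × ℤ)).injective.injOn))
      apply (((hfin.union f1).union f2).union f3).subset
      intro v hv
      by_contra hcon
      simp only [Set.mem_union, Function.mem_support, not_or, not_not] at hcon
      obtain ⟨⟨⟨c1, c2⟩, c3⟩, c4⟩ := hcon
      apply hv
      unfold energyAt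
      rw [c1, c2, c3, c4]; ring
    have hB : ∀ v, 0 ≤ (TU x u ψ v + TD x u ψ v) + M ^ 2 * energyAt φ v := by
      intro v
      have h1 := face_ineq x u hM φ v (v + (1, 0)) (v + (0, 1))
      have h2 := face_ineq x u hM φ v (v + (0, 1)) (v + (-1, 1))
      unfold TU TD energyAt
      linarith
    have hw : κ * T ≤ (TU x u ψ w + TD x u ψ w) + M ^ 2 * energyAt φ w := by
      have n1 : nrm (w + (1, 0)) ≤ nrm w + 1 := by
        obtain ⟨a, b⟩ := w; simp only [nrm, Prod.mk_add_mk]; omega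
      have n2 : nrm (w + (0, 1)) ≤ nrm w + 1 := by
        obtain ⟨a, b⟩ := w; simp only [nrm, Prod.mk_add_mk]; omega
      have h1 := hface φ (hone _ (by omega)) (hone _ n1) (hone _ n2)
      have h2 := face_ineq x u hM φ w (w + (0, 1)) (w + (-1, 1))
      have h3 : M ^ 2 * ((φ w - φ (w + (0, 1))) ^ 2 + (φ (w + (0, 1)) - φ (w + (-1, 1))) ^ 2 +
        (φ w - φ (w + (-1, 1))) ^ 2) ≤ M ^ 2 * energyAt φ w := by
        unfold energyAt
        apply mul_le_mul_of_nonneg_left _ (sq_nonneg M)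
        have : 0 ≤ (φ w - φ (w + (1, 0))) ^ 2 + (φ (w + (1, 0)) - φ (w + (0, 1))) ^ 2 +
          (φ w - φ (w + (0, 1))) ^ 2 := by positivity
        linarith
      have h4 : κ * T ≤ TU x u ψ w := h1
      unfold TD
      linarith
    have hsB : Summable (fun v => (TU x u ψ v + TD x u ψ v) + M ^ 2 * energyAt φ v) :=
      hs1.add (hes.mul_left _)
    calc κ * T ≤ _ := hw
      _ ≤ ∑' v, ((TU x u ψ v + TD x u ψ v) + M ^ 2 * energyAt φ v) :=
        hsB.le_tsum w (fun v _ => hB v)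
      _ = M ^ 2 * ∑' v, energyAt φ v := by
        rw [hs1.tsum_add (hes.mul_left _), hs2, zero_add, tsum_mul_left]
      _ ≤ M ^ 2 * ε := by gcongr
  have hT0 : T ≤ 0 := by
    by_contra hcon
    push Not at hcon
    have h1 : 0 < κ * T := by positivity
    have h2 := key (κ * T / (2 * (M ^ 2 + 1))) (by positivity)
    have h3 : M ^ 2 * (κ * T / (2 * (M ^ 2 + 1))) < κ * T := by
      rw [mul_div_assoc', div_lt_iff₀ (by positivity)]
      nlinarith [sq_nonneg M]
    linarith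
  have hp1 : (u w - u (w + (1, 0))) ^ 2 = 0 := by
    nlinarith [sq_nonneg (u w - u (w + (1, 0))), sq_nonneg (u w - u (w + (0, 1)))]
  have hp2 : (u w - u (w + (0, 1))) ^ 2 = 0 := by
    nlinarith [sq_nonneg (u w - u (w + (1, 0))), sq_nonneg (u w - u (w + (0, 1)))]
  exact ⟨sub_eq_zero.1 (pow_eq_zero_iff two_ne_zero |>.1 hp1),
    sub_eq_zero.1 (pow_eq_zero_iff two_ne_zero |>.1 hp2)⟩

end Pool.Agent.W596.Doyle
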