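import Pool.Agent.W596.Doyle.Angle

set_option autoImplicit false

namespace Pool.Agent.W596.Doyle

/-- chord inequality along a chain -/
theorem chord_chain (e : ℕ → ℂ) (i : ℕ) : ∀ n : ℕ,
    ‖e i - e (i + n)‖ ≤ ∑ k ∈ Finset.range n, ‖e (i + k) - e (i + k + 1)‖ := by
  intro n
  induction n with
  | zero => simp
  | succ n ih =>
    rw [Finset.sum_range_succ]
    calc ‖e i - e (i + (n + 1))‖ = ‖(e i - e (i + n)) + (e (i + n) - e (i + n + 1))‖ := by
          congr 1
          rw [← add_assoc]; ring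
      _ ≤ ‖e i - e (i + n)‖ + ‖e (i + n) - e (i + n + 1)‖ := norm_add_le _ _
      _ ≤ _ := by gcongr

/-- abstract ring lemma along a chain of circles -/
theorem chain_bound : ∀ n : ℕ, ∀ ε : ℝ, 0 < ε → ∃ δ : ℝ, 0 < δ ∧ ∀ q : ℕ → ℝ,
    (∀ k, 0 < q k ∧ q k ≤ 1) →
    (∀ i m, 0 < m → i + m ≤ n → Real.sqrt (q i * q (i + m)) ≤
      ∑ k ∈ Finset.range m, Real.sqrt (q (i + k) * q (i + k + 1))) →
    ε ≤ q 0 → ε ≤ q n → ∀ k ≤ n, δ ≤ q k := by
  intro n
  induction n using Nat.strong_induction_on with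
  | _ n ih =>
    intro ε hε
    rcases Nat.lt_or_ge n 2 with hn | hn
    · refine ⟨ε, hε, ?_⟩
      intro q _ _ h0 h1 k hk
      have : k = 0 ∨ k = n := by omega
      rcases this with rfl | rfl
      · exact h0
      · exact h1
    · set ε' : ℝ := min ε ((ε / n) ^ 2) with hε'
      have hn0 : (0 : ℝ) < n := by positivity
      have hε'0 : 0 < ε' := by rw [hε']; positivity
      choose f hf0 hf using fun m : Fin n => ih m m.2 ε' hε'0
      have hne : (Finset.univ : Finset (Fin n)).Nonempty := ⟨⟨0, by omega⟩, Finset.mem_univ _⟩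
      set δ := Finset.univ.inf' hne f with hδ
      have hδ0 : 0 < δ := by
        rw [hδ, Finset.lt_inf'_iff]
        intro m _; exact hf0 m
      have hδf : ∀ m : Fin n, δ ≤ f m := fun m => Finset.inf'_le _ (Finset.mem_univ m)
      refine ⟨δ, hδ0, ?_⟩
      intro q hq hch h0 hn1 k hk
      -- a large edge
      obtain ⟨c, hc0, hcn, hcq⟩ : ∃ c, 0 < c ∧ c < n ∧ ε' ≤ q c := by
        have h1 : ε ≤ ∑ k ∈ Finset.range n, Real.sqrt (q (0 + k) * q (0 + k + 1)) := by
          refine le_trans ?_ (hch 0 n (by omega) (by omega))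
          rw [zero_add]
          apply Real.le_sqrt_of_sq_le
          rw [sq]
          exact mul_le_mul h0 hn1 hε.le (hq 0).1.le
        have h2 : ∑ _k ∈ Finset.range n, ε / n ≤
            ∑ k ∈ Finset.range n, Real.sqrt (q (0 + k) * q (0 + k + 1)) := by
          rw [Finset.sum_const, Finset.card_range, nsmul_eq_mul, mul_div_cancel₀ _ hn0.ne']
          exact h1
        obtain ⟨k, hk, hk2⟩ := Finset.exists_le_of_sum_le ⟨0, by simp; omega⟩ h2
        rw [Finset.mem_range] at hk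
        rw [zero_add] at hk2
        have h3 : (ε / n) ^ 2 ≤ q k * q (k + 1) := by
          have h4 := pow_le_pow_left₀ (by positivity) hk2 2
          rwa [Real.sq_sqrt (mul_pos (hq _).1 (hq _).1).le] at h4
        have h4 : ε' ≤ q k * q (k + 1) := (min_le_right _ _).trans h3
        have h5 : ε' ≤ q k := h4.trans (mul_le_of_le_one_right (hq _).1.le (hq _).2)
        have h6 : ε' ≤ q (k + 1) := h4.trans (mul_le_of_le_one_left (hq _).1.le (hq _).2)
        rcases Nat.eq_zero_or_pos k with h | h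
        · exact ⟨k + 1, by omega, by omega, h6⟩
        · exact ⟨k, h, hk, h5⟩
      rcases Nat.lt_or_ge c k with hck | hck
      · -- second part
        have := hf ⟨n - c, by omega⟩ (fun j => q (c + j)) (fun j => hq _) ?_ ?_ ?_ (k - c) ?_
        · rw [show c + (k - c) = k by omega] at this
          exact (hδf _).trans this
        · intro i m hm him
          have h := hch (c + i) m hm (by simp only at him; omega)
          simpa only [add_assoc] using h
        · simpa using hcq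
        · simp only
          rw [show c + (n - c) = n by omega]
          exact (min_le_left _ _).trans hn1
        · simp only; omega
      · have := hf ⟨c, hcn⟩ q hq ?_ ?_ ?_ k hck
        · exact (hδf _).trans this
        · intro i m hm him
          exact hch i m hm (by simp only at him; omega)
        · exact (min_le_left _ _).trans h0
        · exact hcq

/-- planar geometry: two circles of radii `s`, `t` tangent externally to the circle of radius `r`
with centres `w₁`, `w₂` (the centre of the first circle being the origin). -/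
theorem chord_sq {r s t : ℝ} (hr : 0 < r) (hs : 0 < s) (ht : 0 < t) {w₁ w₂ : ℂ}
    (h₁ : ‖w₁‖ = r + s) (h₂ : ‖w₂‖ = r + t) :
    ‖w₁ - w₂‖ ^ 2 = (s - t) ^ 2 + (r + s) * (r + t) * ‖w₁ / ‖w₁‖ - w₂ / ‖w₂‖‖ ^ 2 := by
  have e1 : ‖w₁ - w₂‖ ^ 2 = ‖w₁‖ ^ 2 + ‖w₂‖ ^ 2 - 2 * (w₁.re * w₂.re + w₁.im * w₂.im) := by
    simp only [Complex.sq_norm, Complex.normSq_apply, Complex.sub_re, Complex.sub_im]
    ring
  have hA : (0:ℝ) < r + s := by positivity
  have hB : (0:ℝ) < r + t := by positivity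
  have e2 : ‖w₁ / ‖w₁‖ - w₂ / ‖w₂‖‖ ^ 2 = 2 - 2 * (w₁.re * w₂.re + w₁.im * w₂.im) /
      ((r + s) * (r + t)) := by
    rw [h₁, h₂, Complex.sq_norm, Complex.normSq_apply]
    have a1 : (w₁ / ((r + s : ℝ) : ℂ) - w₂ / ((r + t : ℝ) : ℂ)).re = w₁.re / (r + s) - w₂.re / (r + t) := by
      rw [Complex.sub_re, Complex.div_ofReal_re, Complex.div_ofReal_re]
    have a2 : (w₁ / ((r + s : ℝ) : ℂ) - w₂ / ((r + t : ℝ) : ℂ)).im = w₁.im / (r + s) - w₂.im / (r + t) := by
      rw [Complex.sub_im, Complex.div_ofReal_im, Complex.div_ofReal_im]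
    rw [a1, a2]
    have b1 : w₁.re ^ 2 + w₁.im ^ 2 = (r + s) ^ 2 := by
      rw [← h₁, Complex.sq_norm, Complex.normSq_apply]; ring
    have b2 : w₂.re ^ 2 + w₂.im ^ 2 = (r + t) ^ 2 := by
      rw [← h₂, Complex.sq_norm, Complex.normSq_apply]; ring
    field_simp
    linear_combination (r + t) ^ 2 * b1 + (r + s) ^ 2 * b2
  rw [e1, e2, h₁, h₂]
  field_simp
  ring

theorem chord_ge {r s t : ℝ} (hr : 0 < r) (hs : 0 < s) (ht : 0 < t) {w₁ w₂ : ℂ}
    (h₁ : ‖w₁‖ = r + s) (h₂ : ‖w₂‖ = r + t) (h : s + t ≤ ‖w₁ - w₂‖) :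
    2 * Real.sqrt ((s / (r + s)) * (t / (r + t))) ≤ ‖w₁ / ‖w₁‖ - w₂ / ‖w₂‖‖ := by
  have hA : (0:ℝ) < r + s := by positivity
  have hB : (0:ℝ) < r + t := by positivity
  have h3 := chord_sq hr hs ht h₁ h₂
  have h4 : (s + t) ^ 2 ≤ ‖w₁ - w₂‖ ^ 2 := pow_le_pow_left₀ (by positivity) h 2
  rw [h3] at h4
  apply le_of_sq_le_sq _ (norm_nonneg _)
  rw [mul_pow, Real.sq_sqrt (by positivity)]
  have : 4 * (s * t) ≤ (r + s) * (r + t) * ‖w₁ / ‖w₁‖ - w₂ / ‖w₂‖‖ ^ 2 := by linarith
  have h5 : (2:ℝ) ^ 2 * (s / (r + s) * (t / (r + t))) = 4 * (s * t) / ((r + s) * (r + t)) := by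
    field_simp; norm_num
  rw [h5, div_le_iff₀ (by positivity)]
  linarith

theorem chord_eq {r s t : ℝ} (hr : 0 < r) (hs : 0 < s) (ht : 0 < t) {w₁ w₂ : ℂ}
    (h₁ : ‖w₁‖ = r + s) (h₂ : ‖w₂‖ = r + t) (h : ‖w₁ - w₂‖ = s + t) :
    ‖w₁ / ‖w₁‖ - w₂ / ‖w₂‖‖ = 2 * Real.sqrt ((s / (r + s)) * (t / (r + t))) := by
  have hA : (0:ℝ) < r + s := by positivity
  have hB : (0:ℝ) < r + t := by positivity
  have h3 := chord_sq hr hs ht h₁ h₂
  rw [h] at h3
  have h6 : ‖w₁ / ‖w₁‖ - w₂ / ‖w₂‖‖ ^ 2 = (2 * Real.sqrt ((s / (r + s)) * (t / (r + t)))) ^ 2 := by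
    rw [mul_pow, Real.sq_sqrt (by positivity)]
    field_simp
    linarith
  exact (pow_left_inj₀ (norm_nonneg _) (by positivity) two_ne_zero).1 h6

end Pool.Agent.W596.Doyle
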